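import Pool.Agent.helper24.ISL.Fin

/-!
# Subgroups of `SL_n(ℚ)` meeting every conjugacy class

Let `n ≥ 2` and let `H` be a subgroup of `SL_n(ℚ)` meeting every conjugacy class. Then `H` is dense in `SL_n` of the adeles
without one place, for every place: `SL_n(ℚ) = H Γ(m)` for all congruence subgroups of `SL_n(ℤ)`, and for every prime `p` every
`g` is `h γ` with `γ ∈ SL_n(ℤ[1/p])` congruent to `1` modulo `m` and close to `1`. If `H` is proper then `H ∩ SL_n(ℤ)` has infinite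
index in `SL_n(ℤ)` and, if `n ≥ 3`, any two of its transvections that are not in the same root group are far from
commuting.
-/

namespace Pool.Agent.Results.MP_512a69_al.DenseOffOnePlace

open Matrix

theorem result (n : ℕ) (hn : 2 ≤ n) (H : Subgroup (SpecialLinearGroup (Fin n) ℚ))
    (hH : ∀ g : SpecialLinearGroup (Fin n) ℚ, ∃ x : SpecialLinearGroup (Fin n) ℚ, x * g * x⁻¹ ∈ H) :
    -- density without the real place
    (∀ m : ℕ, 0 < m → ∀ g : SpecialLinearGroup (Fin n) ℚ, ∃ h ∈ H, ∃ γ : SpecialLinearGroup (Fin n) ℤ,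
      (∀ i j, (m : ℤ) ∣ γ i j - (1 : Matrix (Fin n) (Fin n) ℤ) i j) ∧
      g = h * SpecialLinearGroup.map (Int.castRingHom ℚ) γ) ∧
    -- density without the place `p`
    (∀ p : ℕ, p.Prime → ∀ m : ℕ, 0 < m → ∀ ε : ℚ, 0 < ε → ∀ g : SpecialLinearGroup (Fin n) ℚ,
      ∃ h ∈ H, ∃ γ : SpecialLinearGroup (Fin n) ℚ,
      (∃ k : ℕ, ∀ i j, ∃ a : ℤ, (p : ℚ) ^ k * (γ i j - (1 : Matrix (Fin n) (Fin n) ℚ) i j) = m * a) ∧
      (∀ i j, |γ i j - (1 : Matrix (Fin n) (Fin n) ℚ) i j| < ε) ∧ g = h * γ) ∧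
    -- proper subgroups
    (H ≠ ⊤ →
      (H.comap (SpecialLinearGroup.map (Int.castRingHom ℚ) :
        SpecialLinearGroup (Fin n) ℤ →* SpecialLinearGroup (Fin n) ℚ)).index = 0 ∧
      (3 ≤ n → ∀ e φ e' φ' : Fin n → ℚ, ∀ t ∈ H, ∀ t' ∈ H,
        (t : Matrix (Fin n) (Fin n) ℚ) = 1 + vecMulVec e φ →
        (t' : Matrix (Fin n) (Fin n) ℚ) = 1 + vecMulVec e' φ' → t ≠ 1 →
        (∀ c : ℚ, vecMulVec e' φ' ≠ c • vecMulVec e φ) →
        5 ≤ |((φ ⬝ᵥ e') * (φ' ⬝ᵥ e)).num|)) :=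
  Pool.Agent.ISL.fin n hn H hH

end Pool.Agent.Results.MP_512a69_al.DenseOffOnePlace
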