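import Pool.Agent.helper77.IG.Final

/-!
# Subgroups of `SL_n(ℚ)` discrete at one place and meeting many conjugacy classes

For every `n ≥ 2` there is a proper subgroup of `SL_n(ℚ)`, discrete in `SL_n(ℝ)`, meeting the
conjugacy class of every element that has a power with only real eigenvalues, or whose growth in
both directions is realised by real eigenvalues. For every prime `p` there is a proper subgroup,
discrete in `SL_n(ℚ_p)`, meeting the class of every element of finite order, of every element with
all eigenvalues in `ℚ_p`, not all units, of every element whose `p`-adic growth in both directions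
is realised by eigenvalues in `ℚ_p`, and, if `n = 2`, of every element with `|tr g|_p > 1`.
-/

namespace Pool.Agent.Results.MP_512a69_al.DiscreteAtOnePlace

open Pool.Agent.helper77.IG

theorem result :
    (∀ n : ℕ, 2 ≤ n → ∃ H : Subgroup (Matrix.SpecialLinearGroup (Fin n) ℚ),
      H ≠ ⊤ ∧ DiscreteAt Rat.AbsoluteValue.real H ∧
      ∀ g : Matrix.SpecialLinearGroup (Fin n) ℚ,
        (VirtuallyReal g ∨ Extremal ℝ g) → Meets H g) ∧
    (∀ p : ℕ, ∀ _ : Fact p.Prime, ∀ n : ℕ, 2 ≤ n →
      ∃ H : Subgroup (Matrix.SpecialLinearGroup (Fin n) ℚ),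
      H ≠ ⊤ ∧ DiscreteAt (Rat.AbsoluteValue.padic p) H ∧
      ∀ g : Matrix.SpecialLinearGroup (Fin n) ℚ,
        (IsOfFinOrder g ∨ SplitNonunit p g ∨ Extremal ℚ_[p] g ∨
          (n = 2 ∧ 1 < padicNorm p g.1.trace)) → Meets H g) :=
  ⟨main_real, fun p _ n hn => main_padic p n hn⟩

end Pool.Agent.Results.MP_512a69_al.DiscreteAtOnePlace
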